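import Pool.Agent.H.MP_fe3f7a_an.B

namespace Pool.Agent.Results.MP_fe3f7a_an.Yes

open Pool.Agent.H.MP_fe3f7a_an

def Indep (z w : ℂ) : Prop := ∀ m n : ℤ, z ^ m * w ^ n = 1 → m = 0 ∧ n = 0

variable {V : Type*} [AddCommGroup V] [Module ℂ V] (T : Module.End ℂ V)

def Jordan (c : ℂ) : Prop := LinearMap.ker ((T - c • 1) ^ 2) ≠ LinearMap.ker (T - c • 1)

def C1 : Prop := ∃ a b : ℂ, T.HasEigenvalue a ∧ T.HasEigenvalue b ∧ ‖a‖ = ‖b‖ ∧ 1 < ‖b‖ ∧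
  Indep (a / ‖a‖) (b / ‖b‖)

def C2 : Prop := ∃ a b : ℂ, ‖a‖ = 1 ∧ ‖b‖ = 1 ∧ Indep a b ∧ Jordan T a ∧ Jordan T b

def C3 : Prop := ∃ a b c : ℂ, T.HasEigenvalue a ∧ T.HasEigenvalue b ∧ T.HasEigenvalue c ∧
  ‖a‖ = ‖b‖ ∧ ‖c‖ < ‖b‖ ∧ 1 < ‖c‖ ∧ ¬ IsOfFinOrder (a / b) ∧ Indep (a / ‖a‖) (c / ‖c‖)

def C4 : Prop := ∃ a b c : ℂ, T.HasEigenvalue a ∧ T.HasEigenvalue b ∧ ‖c‖ = 1 ∧ Jordan T c ∧
  ‖a‖ = ‖b‖ ∧ 1 < ‖b‖ ∧ ¬ IsOfFinOrder (a / b) ∧ Indep (a / ‖a‖) c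

lemma dep {z w : ℂ} (hz : ¬ IsOfFinOrder z) (z0 : z ≠ 0) (h : ¬ Indep z w) :
    ∃ q : ℕ, 0 < q ∧ ∃ m : ℤ, w ^ q = z ^ m := by
  simp only [Indep, not_forall] at h
  obtain ⟨m, n, h1, h2⟩ := h
  have e : w ^ n = z ^ (-m) := by
    rw [zpow_neg]; exact eq_inv_of_mul_eq_one_right h1
  have n0 : n ≠ 0 := by
    rintro rfl
    refine hz (isOfFinOrder_iff_pow_eq_one.2 ⟨m.natAbs, by omega, ?_⟩)
    rw [zpow_zero, mul_one] at h1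
    rcases Int.natAbs_eq m with c | c
    · rw [← zpow_natCast, ← c, h1]
    · rw [c, zpow_neg, inv_eq_one, zpow_natCast] at h1; exact h1
  refine ⟨n.natAbs, by omega, ?_⟩
  rcases Int.natAbs_eq n with c | c
  · exact ⟨-m, by rw [← zpow_natCast, ← c, e]⟩
  · refine ⟨m, ?_⟩
    rw [c, zpow_neg, zpow_neg, inv_inj, zpow_natCast] at e
    exact e

theorem result [FiniteDimensional ℂ V] (x : V) (f : Module.Dual ℂ V)
    (h : DenseRange fun k : ℕ => f ((T ^ k) x)) : C1 T ∨ C2 T ∨ C3 T ∨ C4 T := by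
  classical
  by_contra hc
  simp only [not_or] at hc
  obtain ⟨c1, c2, c3, c4⟩ := hc
  obtain ⟨y, hy, rfl⟩ := (Submodule.mem_iSup_iff_exists_finsupp _ x).1
    (T.iSup_maxGenEigenspace_eq_top ▸ Submodule.mem_top)
  choose n hn using fun μ => (Module.End.mem_maxGenEigenspace T μ (y μ)).1 (hy μ)
  set big : ℂ → Prop := fun μ => 1 < ‖μ‖ ∨ (‖μ‖ = 1 ∧ Jordan T μ)
  set Λ := y.support.filter big
  have hb : ∀ μ ∈ Λ, big μ := fun μ h => (Finset.mem_filter.1 h).2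
  have he : ∀ μ ∈ Λ, T.HasEigenvalue μ := fun μ h =>
    eig T _ μ _ (hn μ) (Finsupp.mem_support_iff.1 (Finset.mem_filter.1 h).1)
  have h0 : ∀ μ ∈ Λ, 1 ≤ ‖μ‖ := fun μ h => (hb μ h).elim le_of_lt fun h => h.1.ge
  have n0 : ∀ μ ∈ Λ, μ ≠ 0 := fun μ h => norm_pos_iff.1 (one_pos.trans_le (h0 μ h))
  have hp : ∀ μ : ℂ, ∃ p : Polynomial ℂ, μ ∈ Λ → ∀ k : ℕ,
      f ((T ^ k) (y μ)) = p.eval (k : ℂ) * μ ^ k := fun μ => by
    by_cases c : μ ∈ Λ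
    · obtain ⟨p, hp⟩ := jordan T f _ μ (n0 μ c) _ (hn μ)
      exact ⟨p, fun _ => hp⟩
    · exact ⟨0, fun h => absurd h c⟩
  choose p hp using hp
  have hB : ∀ μ : ℂ, ∃ B, ¬ big μ → ∀ k : ℕ, ‖f ((T ^ k) (y μ))‖ ≤ B := fun μ => by
    by_cases c : big μ
    · exact ⟨0, fun h => absurd c h⟩
    · obtain ⟨B, hB⟩ := small T f _ μ _ (hn μ) (by
        simp only [big, Jordan, not_or, not_and, not_not, not_lt] at c
        exact c.1.lt_or_eq.imp id fun e => ⟨e, c.2 e⟩)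
      exact ⟨B, fun _ => hB⟩
  choose B hB using hB
  have key : ∃ (z : ℂ) (R : ℝ), ‖z‖ = 1 ∧ 0 ≤ R ∧
      (∀ μ ∈ Λ, ‖μ‖ ≤ R → ∃ q : ℕ, 0 < q ∧ ∃ m : ℤ, (μ / ‖μ‖) ^ q = z ^ m) ∧
      ∀ μ ∈ Λ, ∀ μ' ∈ Λ, R < ‖μ‖ → ‖μ‖ = ‖μ'‖ → IsOfFinOrder (μ / μ') := by
    set G := Λ.filter fun μ => ∃ μ' ∈ Λ, ‖μ‖ = ‖μ'‖ ∧ ¬ IsOfFinOrder (μ / μ')
    rcases G.eq_empty_or_nonempty with hG | hG
    · refine ⟨1, 0, norm_one, le_rfl, fun μ h c => absurd ((h0 μ h).trans c) (by norm_num),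
        fun μ h μ' h' _ e => ?_⟩
      by_contra c
      exact Finset.eq_empty_iff_forall_notMem.1 hG μ (Finset.mem_filter.2 ⟨h, μ', h', e, c⟩)
    obtain ⟨a, ha, ha2⟩ := G.exists_max_image (fun μ => ‖μ‖) hG
    have fin : ∀ a ∈ Λ, ∀ b ∈ Λ, ‖a‖ = ‖b‖ → ¬ IsOfFinOrder (a / b) →
        ¬ IsOfFinOrder (a / ‖a‖) → ∀ μ ∈ Λ, ‖μ‖ ≤ ‖a‖ →
        ∃ q : ℕ, 0 < q ∧ ∃ m : ℤ, (μ / ‖μ‖) ^ q = (a / ‖a‖) ^ m := by
      intro a a1 b b1 e o1 o2 μ m1 m2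
      refine dep o2 (div_ne_zero (n0 a a1) (by simpa using n0 a a1)) fun i => ?_
      rcases hb μ m1 with m3 | ⟨m3, m4⟩
      · rcases m2.lt_or_eq with m5 | m5
        · exact c3 ⟨a, b, μ, he a a1, he b b1, he μ m1, e, e ▸ m5, m3, o1, i⟩
        · exact c1 ⟨a, μ, he a a1, he μ m1, m5.symm, m3, i⟩
      · rw [m3, Complex.ofReal_one, div_one] at i
        rcases hb a a1 with a2 | ⟨a2, a3⟩
        · exact c4 ⟨a, b, μ, he a a1, he b b1, m3, m4, e, e ▸ a2, o1, i⟩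
        · rw [a2, Complex.ofReal_one, div_one] at i
          exact c2 ⟨a, μ, a2, m3, i, a3, m4⟩
    have up : ∀ μ ∈ Λ, ∀ μ' ∈ Λ, ‖a‖ < ‖μ‖ → ‖μ‖ = ‖μ'‖ → IsOfFinOrder (μ / μ') := by
      intro μ h μ' h' l e
      by_contra c
      exact absurd (ha2 μ (Finset.mem_filter.2 ⟨h, μ', h', e, c⟩)) (not_le.2 l)
    have nn : ∀ a ∈ Λ, ‖a / ‖a‖‖ = 1 := fun a h => by
      rw [norm_div, Complex.norm_real, norm_norm, div_self (norm_ne_zero_iff.2 (n0 a h))]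
    obtain ⟨a1, b, b1, e, o⟩ := Finset.mem_filter.1 ha
    by_cases o2 : IsOfFinOrder (a / ‖a‖)
    · have o3 : ¬ IsOfFinOrder (b / ‖b‖) := fun o3 => o (by
        obtain ⟨q, q1, q2⟩ := isOfFinOrder_iff_pow_eq_one.1 o2
        obtain ⟨r, r1, r2⟩ := isOfFinOrder_iff_pow_eq_one.1 o3
        refine isOfFinOrder_iff_pow_eq_one.2 ⟨q * r, by positivity, ?_⟩
        have : a / b = (a / ‖a‖) / (b / ‖b‖) := by
          have : (‖b‖ : ℂ) ≠ 0 := by simpa using n0 b b1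
          rw [e]; field_simp
        rw [this, div_pow, pow_mul, q2, mul_comm, pow_mul, r2]
        simp)
      have o4 : ¬ IsOfFinOrder (b / a) := fun o4 => o (by
        obtain ⟨q, q1, q2⟩ := isOfFinOrder_iff_pow_eq_one.1 o4
        exact isOfFinOrder_iff_pow_eq_one.2 ⟨q, q1, by rw [← inv_div, inv_pow, q2, inv_one]⟩)
      exact ⟨b / ‖b‖, ‖a‖, nn b b1, norm_nonneg _,
        fun μ h l => fin b b1 a a1 e.symm o4 o3 μ h (e ▸ l), up⟩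
    · exact ⟨a / ‖a‖, ‖a‖, nn a a1, norm_nonneg _, fin a a1 b b1 e o o2, up⟩
  obtain ⟨z, R, k1, k2, k3, k4⟩ := key
  refine main Λ p z k1 R k2 h0 k3 k4
    (fun k => ∑ μ ∈ y.support.filter fun μ => ¬ big μ, f ((T ^ k) (y μ)))
    (∑ μ ∈ y.support.filter fun μ => ¬ big μ, B μ)
    (fun k => norm_sum_le_of_le _ fun μ h => hB μ (Finset.mem_filter.1 h).2 k) ?_
  convert h using 2 with k
  rw [Finsupp.sum, map_sum, map_sum, ← Finset.sum_filter_add_sum_filter_not y.support big]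
  congr 1
  exact Finset.sum_congr rfl fun μ h => (hp μ h k).symm

end Pool.Agent.Results.MP_fe3f7a_an.Yes
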